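import Pool.Agent.helper77.PV.SpecB
import Pool.Agent.helper11.PV.Com11
import Pool.Agent.helper11.PV.K0B
import Pool.Agent.helper11.PV.K0S

/-!
# Project pv, row IN0
-/

set_option autoImplicit false

open scoped Matrix Topology
open Filter

namespace Pool.Agent.PV

open Pool.Agent.CZ

attribute [local instance] Matrix.linftyOpNormedRing Matrix.linftyOpNormedAlgebra

section

variable {B A : Type} [NormedRing B] [NormedAlgebra ℂ B] [NormedRing A] [NormedAlgebra ℂ A]

omit [NormedAlgebra ℂ A] in
theorem IN0_uM {ι : Type} [Fintype ι] [DecidableEq ι] (u : Aˣ) (i j : ι) :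
    (uM ι u : Matrix ι ι A) i j = if i = j then (u : A) else 0 := by
  change (Matrix.scalar ι (u : A)) i j = _
  rw [Matrix.scalar_apply, Matrix.diagonal_apply]

omit [NormedAlgebra ℂ A] in
theorem IN0_uMi {ι : Type} [Fintype ι] [DecidableEq ι] (u : Aˣ) (i j : ι) :
    (((uM ι u)⁻¹ : (Matrix ι ι A)ˣ) : Matrix ι ι A) i j = if i = j then ((u⁻¹ : Aˣ) : A) else 0 := by
  have h : (uM ι u)⁻¹ = uM ι u⁻¹ := by
    unfold uM
    rw [map_inv]
  rw [h, IN0_uM]

omit [NormedAlgebra ℂ A] in
theorem IN0_uMsub {ι κ : Type} [Fintype ι] [DecidableEq ι] [Fintype κ] [DecidableEq κ] (f : ι ≃ κ) (u : Aˣ) :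
    (uM ι u : Matrix ι ι A).submatrix f.symm f.symm = (uM κ u : Matrix κ κ A) := by
  ext i j
  rw [Matrix.submatrix_apply, IN0_uM, IN0_uM]
  simp [f.symm.injective.eq_iff]

/-- `d = 1` -/
theorem IN0_one (hQOP : QOP_stmt) (hQDM : QDM_stmt) [CompleteSpace B] [CompleteSpace A] (al : B ≃ₐ[ℂ] B)
    (io : B →ₐ[ℂ] A) (u : Aˣ) (c : ℤ → A →ₗ[ℂ] B) (hZ : ZPair al io u c) (ι : Type) [Fintype ι] [DecidableEq ι]
    (x : ℕ → Matrix ι ι B) (hx : ∀ k, 1 < k → x k = 0) (V : (Matrix ι ι A)ˣ) (hV : IsLin io u (x 0) (x 1) V)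
    (P : Matrix ι ι B) (hP : P * P = P) (hq : qL al c (x 1) V = P) : IsInd al io u c V (k0 P hP) := by
  set f : ι ≃ Fin 1 × ι := (Equiv.uniqueProd ι (Fin 1)).symm with hf
  have ha : aL 1 x = (x 0).submatrix f.symm f.symm := by
    ext ⟨i1, i⟩ ⟨j1, j⟩
    have h1 : i1.val = 0 := by omega
    have h2 : j1.val = 0 := by omega
    simp only [aL, Matrix.of_apply, Matrix.submatrix_apply, h1, h2, if_true]
    rfl
  have hb : bL 1 x = (x 1).submatrix f.symm f.symm := by
    ext ⟨i1, i⟩ ⟨j1, j⟩
    have h1 : i1.val = 0 := by omega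
    have h2 : j1.val = 0 := by omega
    simp only [bL, Matrix.of_apply, Matrix.submatrix_apply, h1, h2, if_true, Nat.zero_add]
    rfl
  have hL : IsLin io u (aL 1 x) (bL 1 x) (rix f V) := by
    unfold IsLin
    rw [E11_rix, hV, ha, hb, ← IN0_uMsub f u]
    ext i j
    rw [Matrix.submatrix_apply, Matrix.add_apply, Matrix.add_apply]
    congr 1
    rw [← Matrix.submatrix_map, Matrix.submatrix_mul_equiv]
    rfl
  have hqq := (hQDM B A al io u c hZ (Fin 1 × ι) _ _ (rix f V) hL).qq
  refine ⟨0, 1, x, rix f V, hqq, le_rfl, hx, ?_, hL, ?_⟩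
  · have h1 : pX io u x 1 * ((uM ι u ^ (-((0 : ℕ) : ℤ)) : (Matrix ι ι A)ˣ) : Matrix ι ι A) = V := by
      rw [hV]
      simp [pX, Finset.sum_range_succ]
    rw [h1, Units.inv_mul, sub_self, norm_zero]
    exact one_pos
  · have h2 : qL al c (bL 1 x) (rix f V) = P.submatrix f.symm f.symm := by
      rw [hb, (hQOP B A al io u c hZ ι (Fin 1 × ι)).2.1 f (x 1) V, hq]
    have h3 : P.submatrix f.symm f.symm * P.submatrix f.symm f.symm = P.submatrix f.symm f.symm := by
      rw [Matrix.submatrix_mul_equiv, hP]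
    rw [E11_congr h2 hqq h3, ← E11_reindex f P hP h3]
    simp

end

theorem IN0 (hQOP : QOP_stmt) (hQDM : QDM_stmt) (hZC : ZC_stmt) (hK0E : K0E_stmt) : IN0_stmt := by
  intro B A _ _ _ _ _ _ al io u c hZ ι _ _
  have hK0B := K0B hK0E K0S
  have hc0 : ∀ b : B, c (-1) (io b) = 0 := by
    intro b
    have h := hZ.cval (-1) 0 b
    rw [zpow_zero, Units.val_one, mul_one, if_neg (by norm_num)] at h
    exact h
  refine ⟨fun g => ?_, ?_, ?_⟩
  · have h0 := hK0B.2.1 B ι (by rw [mul_zero])
    rw [← h0]
    refine IN0_one hQOP hQDM al io u c hZ ι (fun k => if k = 0 then (g : Matrix ι ι B) else 0) ?_ _ ?_ 0 _ ?_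
    · intro k hk
      exact if_neg (by omega)
    · unfold IsLin
      simp only [if_true]
      rw [if_neg (by norm_num)]
      have h1 : (0 : Matrix ι ι B).map io = 0 := by
        ext i j
        simp
      rw [h1, zero_mul, add_zero]
      rfl
    · rw [if_neg (by norm_num)]
      exact (hQOP B A al io u c hZ ι ι).2.2.2.1 _
  · have h0 := hK0B.2.2 B ι (by rw [mul_one])
    rw [← h0]
    refine IN0_one hQOP hQDM al io u c hZ ι (fun k => if k = 1 then (1 : Matrix ι ι B) else 0) ?_ _ ?_ 1 _ ?_
    · intro k hk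
      exact if_neg (by omega)
    · unfold IsLin
      rw [if_neg (by norm_num), if_pos rfl]
      have h1 : (0 : Matrix ι ι B).map io = 0 := by
        ext i j
        simp
      have h2 : (1 : Matrix ι ι B).map io = 1 := by
        ext i j
        rw [Matrix.map_apply, Matrix.one_apply, Matrix.one_apply]
        split_ifs <;> simp
      rw [h1, h2, one_mul, zero_add]
    · rw [if_pos rfl]
      exact (hQOP B A al io u c hZ ι ι).2.2.2.2.1
  · intro P w w' hP v h1 h2 h3 h4 hv
    refine IN0_one hQOP hQDM al io u c hZ ι (fun k => if k = 0 then 1 - P else if k = 1 then w else 0) ?_ v ?_ P hP ?_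
    · intro k hk
      rw [if_neg (by omega), if_neg (by omega)]
    · unfold IsLin
      simp only [if_true]
      rw [if_neg (by norm_num), hv, add_comm]
      congr 1
      ext i j
      rw [Matrix.map_apply, Matrix.sub_apply, Matrix.sub_apply, Matrix.map_apply, Matrix.one_apply,
        Matrix.one_apply, map_sub]
      split_ifs <;> simp
    · simp only [if_true]
      rw [if_neg (by norm_num)]
      set w2 : Matrix ι ι B := w' * P with hw2
      have e1 : w * w2 = P := by rw [hw2, ← mul_assoc, h3, hP]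
      have e2 : w2 * w = P.map al := by rw [hw2, mul_assoc, h1, h4]
      have e3 : P.map al * w2 = w2 := by
        rw [hw2, ← h4, ← mul_assoc, mul_assoc w' w w', h3, mul_assoc, hP]
      set M : Matrix ι ι A := (1 - P.map io) + (((uM ι u)⁻¹ : (Matrix ι ι A)ˣ) : Matrix ι ι A) * w2.map io with hM
      have hcov : ∀ S : Matrix ι ι B, (uM ι u : Matrix ι ι A) * S.map io = (S.map al).map io * (uM ι u : Matrix ι ι A) := by
        intro S
        ext i j
        rw [Matrix.mul_apply, Matrix.mul_apply]
        simp only [IN0_uM, Matrix.map_apply]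
        rw [Finset.sum_eq_single i, Finset.sum_eq_single j]
        · rw [if_pos rfl, if_pos rfl]
          exact hZ.cov _
        · intro k _ hk
          rw [if_neg hk, mul_zero]
        · intro h
          exact absurd (Finset.mem_univ _) h
        · intro k _ hk
          rw [if_neg (Ne.symm hk), zero_mul]
        · intro h
          exact absurd (Finset.mem_univ _) h
      have hmul : ∀ S T : Matrix ι ι B, (S * T).map io = S.map io * T.map io := by
        intro S T
        rw [Matrix.map_mul]
      have hvM : (v : Matrix ι ι A) * M = 1 := by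
        rw [hv, hM, add_mul, mul_add, mul_add, ← mul_assoc _ (((uM ι u)⁻¹ : (Matrix ι ι A)ˣ) : Matrix ι ι A) _]
        have f1 : w.map io * (uM ι u : Matrix ι ι A) * (1 - P.map io) = 0 := by
          rw [mul_sub, mul_one, mul_assoc, hcov, ← mul_assoc, ← hmul, h2, sub_self]
        have f2 : w.map io * (uM ι u : Matrix ι ι A) * (((uM ι u)⁻¹ : (Matrix ι ι A)ˣ) : Matrix ι ι A) * w2.map io =
            P.map io := by
          rw [mul_assoc (w.map io), Units.mul_inv, mul_one, ← hmul, e1]
        have f3 : (1 - P.map io) * (1 - P.map io) = 1 - P.map io := by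
          rw [sub_mul, one_mul, mul_sub, mul_one, ← hmul, hP, sub_self, sub_zero]
        have f4 : (1 - P.map io) * ((((uM ι u)⁻¹ : (Matrix ι ι A)ˣ) : Matrix ι ι A) * w2.map io) = 0 := by
          have f5 : P.map io * (((uM ι u)⁻¹ : (Matrix ι ι A)ˣ) : Matrix ι ι A) =
              (((uM ι u)⁻¹ : (Matrix ι ι A)ˣ) : Matrix ι ι A) * (P.map al).map io := by
            rw [Units.mul_inv_eq_iff_eq_mul, mul_assoc, ← hcov, Units.inv_mul_cancel_left]
          rw [sub_mul, one_mul, ← mul_assoc, f5, mul_assoc, ← hmul, e3, sub_self]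
        rw [f1, f2, f3, f4]
        abel
      have hinv : ((v⁻¹ : (Matrix ι ι A)ˣ) : Matrix ι ι A) = M := by
        rw [Units.inv_eq_of_mul_eq_one_right hvM]
      unfold qL rL
      rw [hinv]
      have hcM : M.map (c (-1)) = w2.map al.symm := by
        ext i j
        rw [hM, Matrix.map_apply, Matrix.add_apply, map_add]
        have g1 : (1 - P.map io) i j = io ((1 - P) i j) := by
          rw [Matrix.sub_apply, Matrix.sub_apply, Matrix.map_apply, Matrix.one_apply, Matrix.one_apply, map_sub]
          split_ifs <;> simp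
        have g2 : ((((uM ι u)⁻¹ : (Matrix ι ι A)ˣ) : Matrix ι ι A) * w2.map io) i j =
            io (al.symm (w2 i j)) * ((u ^ (-1 : ℤ) : Aˣ) : A) := by
          rw [Matrix.mul_apply, Finset.sum_eq_single i]
          · rw [IN0_uMi, if_pos rfl, Matrix.map_apply, zpow_neg_one]
            have g3 := hZ.cov (al.symm (w2 i j))
            rw [AlgEquiv.apply_symm_apply] at g3
            rw [Units.inv_mul_eq_iff_eq_mul, ← mul_assoc, g3, Units.mul_inv_cancel_right]
          · intro k _ hk
            rw [IN0_uMi, if_neg (Ne.symm hk), zero_mul]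
          · intro h
            exact absurd (Finset.mem_univ _) h
        rw [g1, g2, hc0, hZ.cval, if_pos rfl, zero_add]
        rfl
      rw [hcM, ← Matrix.map_mul, e2]
      ext i j
      simp

end Pool.Agent.PV
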