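import Pool.Agent.helper77.PV.SpecB

/-!
# Project pv, row INE
-/

set_option autoImplicit false

open scoped Matrix Topology
open Filter

namespace Pool.Agent.PV

open Pool.Agent.CZ

attribute [local instance] Matrix.linftyOpNormedRing Matrix.linftyOpNormedAlgebra

theorem INE (hAPX : APX_stmt) (hLFA : LFA_stmt) (hQDM : QDM_stmt) : INE_stmt := by
  intro B A _ _ _ _ _ _ al io u c hZ ι _ _ g
  have hg0 : 0 ≤ ‖((g⁻¹ : (Matrix ι ι A)ˣ) : Matrix ι ι A)‖ := norm_nonneg _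
  have he : 0 < 1 / (‖((g⁻¹ : (Matrix ι ι A)ˣ) : Matrix ι ι A)‖ + 1) := by positivity
  obtain ⟨N, d, x, hd, hx, hn⟩ := hAPX B A al io u c hZ ι (g : Matrix ι ι A) _ he
  set Y : Matrix ι ι A := pX io u x d * ((uM ι u ^ (-(N : ℤ)) : (Matrix ι ι A)ˣ) : Matrix ι ι A) with hY
  have h1 : (1 : Matrix ι ι A) - ((g⁻¹ : (Matrix ι ι A)ˣ) : Matrix ι ι A) * Y =
      ((g⁻¹ : (Matrix ι ι A)ˣ) : Matrix ι ι A) * ((g : Matrix ι ι A) - Y) := by
    rw [mul_sub, Units.inv_mul]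
  have h2 : ‖(1 : Matrix ι ι A) - ((g⁻¹ : (Matrix ι ι A)ˣ) : Matrix ι ι A) * Y‖ < 1 := by
    rw [h1]
    refine lt_of_le_of_lt (norm_mul_le _ _) ?_
    have h3 : ‖((g⁻¹ : (Matrix ι ι A)ˣ) : Matrix ι ι A)‖ * ‖(g : Matrix ι ι A) - Y‖ ≤
        ‖((g⁻¹ : (Matrix ι ι A)ˣ) : Matrix ι ι A)‖ * (1 / (‖((g⁻¹ : (Matrix ι ι A)ˣ) : Matrix ι ι A)‖ + 1)) :=
      mul_le_mul_of_nonneg_left hn.le hg0
    refine lt_of_le_of_lt h3 ?_
    rw [mul_one_div, div_lt_one (by positivity)]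
    linarith
  have hcs : @CompleteSpace (Matrix ι ι A) (PseudoMetricSpace.toUniformSpace) :=
    inferInstanceAs (CompleteSpace (ι → ι → A))
  have h4 : IsUnit (((g⁻¹ : (Matrix ι ι A)ˣ) : Matrix ι ι A) * Y) := by
    have h5 := isUnit_one_sub_of_norm_lt_one h2
    rwa [sub_sub_cancel] at h5
  obtain ⟨w, hw⟩ := h4
  have h6 : ((g * w * uM ι u ^ (N : ℤ) : (Matrix ι ι A)ˣ) : Matrix ι ι A) = pX io u x d := by
    rw [Units.val_mul, Units.val_mul, hw, ← mul_assoc, Units.mul_inv, one_mul, hY, mul_assoc, ← Units.val_mul,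
      ← zpow_add, neg_add_cancel, zpow_zero, Units.val_one, mul_one]
  obtain ⟨L, hL, -⟩ := hLFA B A al io u c hZ ι d x _ hd h6
  exact ⟨_, N, d, x, L, (hQDM B A al io u c hZ (Fin d × ι) _ _ L hL).qq, hd, hx, h2, hL, rfl⟩

end Pool.Agent.PV
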